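import Pool.Agent.W393.VR.Base

set_option autoImplicit false

namespace Pool.Agent.W2.VR

open Pool.Agent.W393.VR

variable {P : Type} [Group P]

theorem fi_map (K : Subgroup P) (hK : K.FiniteIndex) (L : Subgroup K) (hL : L.FiniteIndex) :
    (L.map K.subtype).FiniteIndex := by
  refine ⟨?_⟩
  have h1 : L.map K.subtype ≤ K := by
    rintro x ⟨y, _, rfl⟩
    exact y.2
  have h2 := Subgroup.relIndex_mul_index h1
  have h3 : (L.map K.subtype).relIndex K = L.index := by
    unfold Subgroup.relIndex Subgroup.subgroupOf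
    rw [Subgroup.comap_map_eq_self_of_injective K.subtype_injective]
  rw [← h2, h3]
  exact mul_ne_zero hL.index_ne_zero hK.index_ne_zero

theorem exists_hom (g : P) (hg : ¬ IsOfFinOrder g) {K : Subgroup P} (ρ : K →* P)
    (h1 : ∀ x, ρ x ∈ Subgroup.zpowers g) :
    ∃ φ : K →* Multiplicative ℤ, ∀ x, g ^ (Multiplicative.toAdd (φ x)) = ρ x := by
  have hinj := injective_zpow_iff_not_isOfFinOrder.2 hg
  choose k hk using fun x => Subgroup.mem_zpowers_iff.1 (h1 x)
  refine ⟨MonoidHom.mk' (fun x => Multiplicative.ofAdd (k x)) fun x y => ?_, fun x => ?_⟩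
  · rw [← ofAdd_add]
    congr 1
    refine hinj ?_
    simp only
    rw [zpow_add, hk, hk, hk, map_mul]
  · simpa using hk x

theorem ndet_of_vrc (h : VRC P) (g : P) (hg : ¬ IsOfFinOrder g) : NDet g := by
  classical
  obtain ⟨K, hK, hgK, ρ, h1, h2⟩ := h g
  obtain ⟨φ, hφ⟩ := exists_hom g hg ρ h1
  have hinj := injective_zpow_iff_not_isOfFinOrder.2 hg
  have hN : K.normalCore.FiniteIndex := inferInstance
  have hle : K.normalCore ≤ K := K.normalCore_le
  have hm0 : 0 < K.normalCore.index := Nat.pos_of_ne_zero hN.index_ne_zero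
  refine ⟨K.normalCore, inferInstance, hN,
    fun x => if hx : x ∈ K then Multiplicative.toAdd (φ ⟨x, hx⟩) else 0, ?_,
    K.normalCore.index, hm0, Subgroup.pow_index_mem _ g, ?_⟩
  · intro x hx y hy
    have hx' := hle hx
    have hy' := hle hy
    have hxy := K.mul_mem hx' hy'
    simp only [hx', hy', hxy, dif_pos]
    rw [← toAdd_mul, ← map_mul]
    rfl
  · have hgm : g ^ K.normalCore.index ∈ K := hle (Subgroup.pow_index_mem _ g)
    simp only [hgm, dif_pos]
    have h3 := hφ ⟨_, hgm⟩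
    rw [h2 ⟨_, hgm⟩ (Subgroup.pow_mem _ (Subgroup.mem_zpowers g) _)] at h3
    have h4 : g ^ (Multiplicative.toAdd (φ ⟨_, hgm⟩)) = g ^ ((K.normalCore.index : ℕ) : ℤ) := by
      rw [h3, zpow_natCast]
    have h5 := hinj h4
    rw [h5]
    exact_mod_cast hm0.ne'

theorem finSep_of_vrc (h : VRC P) (g : P) (hg : IsOfFinOrder g) : FinSep g := by
  obtain ⟨K, hK, hgK, ρ, h1, h2⟩ := h g
  have hfin : Finite (Subgroup.zpowers g) := (finite_zpowers.2 hg).to_subtype
  have hle : ρ.range ≤ Subgroup.zpowers g := by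
    rintro _ ⟨x, rfl⟩
    exact h1 x
  have hfr : Finite ρ.range := Finite.Set.subset _ (show (ρ.range : Set P) ⊆ Subgroup.zpowers g from hle)
  have hker : ρ.ker.FiniteIndex := Subgroup.finiteIndex_ker ρ
  have hL := fi_map K hK ρ.ker hker
  have hN : (ρ.ker.map K.subtype).normalCore.FiniteIndex := inferInstance
  refine ⟨(ρ.ker.map K.subtype).normalCore, inferInstance, hN, fun x hx hxg => ?_⟩
  obtain ⟨y, hy, rfl⟩ := Subgroup.normalCore_le _ hx
  have h3 := h2 y hxg
  have h4 : ρ y = 1 := hy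
  rw [h4] at h3
  exact h3.symm

theorem rf_of_vrc (h : VRC P) (y : P) (hy : y ≠ 1) :
    ∃ N : Subgroup P, N.Normal ∧ N.FiniteIndex ∧ y ∉ N := by
  by_cases hf : IsOfFinOrder y
  · obtain ⟨N, h1, h2, h3⟩ := finSep_of_vrc h y hf
    exact ⟨N, h1, h2, fun h4 => hy (h3 y h4 (Subgroup.mem_zpowers y))⟩
  · obtain ⟨K, hK, hyK, ρ, h1, h2⟩ := h y
    obtain ⟨φ, hφ⟩ := exists_hom y hf ρ h1
    have hinj := injective_zpow_iff_not_isOfFinOrder.2 hf
    let ψ : K →* Multiplicative (ZMod 2) :=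
      (AddMonoidHom.toMultiplicative (Int.castAddHom (ZMod 2))).comp φ
    have hker : ψ.ker.FiniteIndex := Subgroup.finiteIndex_ker ψ
    have hL := fi_map K hK ψ.ker hker
    have hN : (ψ.ker.map K.subtype).normalCore.FiniteIndex := inferInstance
    refine ⟨(ψ.ker.map K.subtype).normalCore, inferInstance, hN, fun hx => ?_⟩
    obtain ⟨z, hz, hzy⟩ := Subgroup.normalCore_le _ hx
    have hzy' : (z : P) = y := hzy
    have h3 : ρ z = z := h2 z (by rw [hzy']; exact Subgroup.mem_zpowers y)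
    have h4 := hφ z
    rw [h3, hzy'] at h4
    have h5 : Multiplicative.toAdd (φ z) = 1 := hinj (by simpa using h4)
    have h6 : ψ z = 1 := hz
    have h7 : ((Multiplicative.toAdd (φ z) : ℤ) : ZMod 2) = 0 := h6
    rw [h5] at h7
    norm_num at h7

end Pool.Agent.W2.VR
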